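import Mathlib

set_option autoImplicit false

open Cardinal Set

universe u

namespace Pool.Agent.Helper793.MS

/-- a set of atoms is good when every triple of its members satisfies `Q` -/
def Good {S : Type u} (Q : S → S → S → Prop) (s : Set S) : Prop :=
  ∀ x ∈ s, ∀ y ∈ s, ∀ z ∈ s, Q x y z

/-- transfinite construction with fewer than `κ` atoms at each stage -/
theorem builder {S ι : Type u} [LinearOrder ι] [WellFoundedLT ι] {κ : Cardinal.{u}} (hκ : ℵ₀ ≤ κ)
    (hι : ∀ i : ι, #(Iio i) < κ) (Q : S → S → S → Prop) (R : ι → Set S → Prop)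
    (hR : ∀ i s t, s ⊆ t → R i s → R i t)
    (step : ∀ i s, Good Q s → #s < κ → ∃ F : Set S, F.Finite ∧ Good Q (s ∪ F) ∧ R i (s ∪ F)) :
    ∃ s, Good Q s ∧ ∀ i, R i s := by
  classical
  let st : ι → Set S → Set S := fun i s =>
    if h : Good Q s ∧ #s < κ then Classical.choose (step i s h.1 h.2) else ∅
  have hst : ∀ i s, Good Q s → #s < κ → (st i s).Finite ∧ Good Q (s ∪ st i s) ∧
      R i (s ∪ st i s) := by
    intro i s h1 h2
    have : st i s = Classical.choose (step i s h1 h2) := by
      simp only [st]; rw [dif_pos ⟨h1, h2⟩]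
    rw [this]
    exact Classical.choose_spec (step i s h1 h2)
  let F : ι → Set S := (wellFounded_lt (α := ι)).fix
    (fun i rec => st i (⋃ j : Iio i, rec j.1 j.2))
  have hF : ∀ i, F i = st i (⋃ j : Iio i, F j.1) := by
    intro i
    exact WellFounded.fix_eq _ _ _
  let U : ι → Set S := fun i => ⋃ j : Iio i, F j.1
  have hFU : ∀ i j, j < i → F j ⊆ U i := by
    intro i j hj
    exact subset_iUnion (fun j : Iio i => F j.1) ⟨j, hj⟩
  have hUU : ∀ i j, j ≤ i → U j ⊆ U i := by
    intro i j hj
    apply iUnion_subset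
    rintro ⟨k, hk⟩
    exact hFU i k (lt_of_lt_of_le hk hj)
  have main : ∀ i, (F i).Finite ∧ Good Q (U i ∪ F i) ∧ R i (U i ∪ F i) := by
    intro i
    induction i using (wellFounded_lt (α := ι)).induction with
    | _ i ih =>
      have hgood : Good Q (U i) := by
        intro x hx y hy z hz
        obtain ⟨⟨j1, h1⟩, hx⟩ := mem_iUnion.1 hx
        obtain ⟨⟨j2, h2⟩, hy⟩ := mem_iUnion.1 hy
        obtain ⟨⟨j3, h3⟩, hz⟩ := mem_iUnion.1 hz
        have hmax : ∃ j < i, j1 ≤ j ∧ j2 ≤ j ∧ j3 ≤ j :=
          ⟨max j1 (max j2 j3), max_lt h1 (max_lt h2 h3), le_max_left _ _,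
            (le_max_left _ _).trans (le_max_right _ _), (le_max_right _ _).trans (le_max_right _ _)⟩
        obtain ⟨j, hj, k1, k2, k3⟩ := hmax
        have hsub : ∀ k ≤ j, F k ⊆ U j ∪ F j := by
          intro k hk
          rcases hk.lt_or_eq with h | h
          · exact (hFU j k h).trans subset_union_left
          · rw [h]; exact subset_union_right
        exact (ih j hj).2.1 x (hsub _ k1 hx) y (hsub _ k2 hy) z (hsub _ k3 hz)
      have hcard : #(U i) < κ := by
        have hle : #(U i) ≤ #(Iio i) * ⨆ j : Iio i, #(F j.1) := mk_iUnion_le _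
        rcases hκ.eq_or_lt with h | h
        · have hfin : (Iio i).Finite := by
            rw [← Cardinal.lt_aleph0_iff_set_finite, h]; exact hι i
          have : (U i).Finite := by
            have := hfin.to_subtype
            exact finite_iUnion (fun j : Iio i => (ih j.1 j.2).1)
          rw [← h]
          exact Cardinal.lt_aleph0_iff_set_finite.2 this
        · refine hle.trans_lt ?_
          apply mul_lt_of_lt hκ (hι i)
          refine lt_of_le_of_lt ?_ h
          apply ciSup_le'
          intro j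
          exact (Cardinal.lt_aleph0_iff_set_finite.2 (ih j.1 j.2).1).le
      have := hst i (U i) hgood hcard
      have hFi : F i = st i (U i) := hF i
      rw [hFi]
      exact this
  refine ⟨⋃ i, F i, ?_, ?_⟩
  · intro x hx y hy z hz
    obtain ⟨j1, hx⟩ := mem_iUnion.1 hx
    obtain ⟨j2, hy⟩ := mem_iUnion.1 hy
    obtain ⟨j3, hz⟩ := mem_iUnion.1 hz
    have hmax : ∃ j, j1 ≤ j ∧ j2 ≤ j ∧ j3 ≤ j :=
      ⟨max j1 (max j2 j3), le_max_left _ _,
        (le_max_left _ _).trans (le_max_right _ _), (le_max_right _ _).trans (le_max_right _ _)⟩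
    obtain ⟨j, k1, k2, k3⟩ := hmax
    have hsub : ∀ k ≤ j, F k ⊆ U j ∪ F j := by
      intro k hk
      rcases hk.lt_or_eq with h | h
      · exact (hFU j k h).trans subset_union_left
      · rw [h]; exact subset_union_right
    exact (main j).2.1 x (hsub _ k1 hx) y (hsub _ k2 hy) z (hsub _ k3 hz)
  · intro i
    refine hR i _ _ ?_ (main i).2.2
    apply union_subset
    · apply iUnion_subset
      rintro ⟨k, hk⟩
      exact subset_iUnion F k
    · exact subset_iUnion F i

end Pool.Agent.Helper793.MS
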