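import Pool.Agent.Helper793.MS.Builder

set_option autoImplicit false

open Cardinal Set

universe u

namespace Pool.Agent.Helper793.MS

variable {A B C X Y K : Type u} [Group A] [Group B] [Group C] [MulAction A X] [MulAction B Y]

/-- the setting: `A` acts on `X`, `B` acts on `Y`, `C` maps to both, point stabilisers lie in the
images of `C` and meet `C` in the same subgroup `N`; `oX`, `oY` label the orbits -/
structure Ctx (f : C →* A) (g : C →* B) (oX : X → K) (oY : Y → K) (N : Subgroup C) : Prop where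
  hoX : ∀ x x', oX x = oX x' ↔ ∃ a : A, a • x = x'
  hoY : ∀ y y', oY y = oY y' ↔ ∃ b : B, b • y = y'
  hfX : ∀ (x : X) (c : C), f c • x = x ↔ c ∈ N
  hgY : ∀ (y : Y) (c : C), g c • y = y ↔ c ∈ N
  stX : ∀ (x : X) (a : A), a • x = x → a ∈ f.range
  stY : ∀ (y : Y) (b : B), b • y = y → b ∈ g.range
  surjX : ∀ k, ∃ x, oX x = k
  surjY : ∀ k, ∃ y, oY y = k

/-- pair conditions -/
def Q2 (f : C →* A) (g : C →* B) (oX : X → K) (oY : Y → K) (s t : X × Y × Bool) : Prop :=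
  (∀ c, f c • s.1 = t.1 ↔ g c • s.2.1 = t.2.1) ∧
  (s.2.2 = true → t.2.2 = true → oX s.1 = oX t.1 → ∃ c, f c • s.1 = t.1) ∧
  (oX s.1 = oX t.1 → oY s.2.1 = oY t.2.1 → ∃ c, f c • s.1 = t.1)

/-- triple condition -/
def Q3 (f : C →* A) (oY : Y → K) (s t r : X × Y × Bool) : Prop :=
  s.2.2 = false → t.2.2 = false → r.2.2 = false → oY s.2.1 = oY t.2.1 → oY t.2.1 = oY r.2.1 →
    (∃ c, f c • s.1 = t.1) ∨ (∃ c, f c • s.1 = r.1) ∨ (∃ c, f c • t.1 = r.1)

def QQ (f : C →* A) (g : C →* B) (oX : X → K) (oY : Y → K) (s t r : X × Y × Bool) : Prop :=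
  Q2 f g oX oY s t ∧ Q3 f oY s t r

variable {f : C →* A} {g : C →* B} {oX : X → K} {oY : Y → K} {N : Subgroup C}

lemma Ctx.symX (_ : Ctx f g oX oY N) {x x' : X} (h : ∃ c, f c • x = x') : ∃ c, f c • x' = x := by
  obtain ⟨c, rfl⟩ := h
  exact ⟨c⁻¹, by rw [map_inv, inv_smul_smul]⟩

lemma Ctx.insert (H : Ctx f g oX oY N) {s : Set (X × Y × Bool)} (hs : Good (QQ f g oX oY) s)
    (u : X) (p : Y) (l : Bool)
    (h1 : ∀ a ∈ s, ∀ c, f c • a.1 ≠ u) (h2 : ∀ a ∈ s, ∀ c, g c • a.2.1 ≠ p)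
    (h3 : l = true → ∀ a ∈ s, a.2.2 = true → oX a.1 ≠ oX u)
    (h4 : ∀ a ∈ s, oX a.1 = oX u → oY a.2.1 ≠ oY p)
    (h5 : l = false → ∀ a ∈ s, ∀ a' ∈ s, a.2.2 = false → a'.2.2 = false → oY a.2.1 = oY p →
      oY a'.2.1 = oY p → ∃ c, f c • a.1 = a'.1) :
    Good (QQ f g oX oY) (s ∪ {(u, p, l)}) := by
  have h1' : ∀ a ∈ s, ∀ c, f c • u ≠ a.1 := by
    intro a ha c hc
    exact h1 a ha c⁻¹ (by rw [← hc, map_inv, inv_smul_smul])
  have h2' : ∀ a ∈ s, ∀ c, g c • p ≠ a.2.1 := by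
    intro a ha c hc
    exact h2 a ha c⁻¹ (by rw [← hc, map_inv, inv_smul_smul])
  have hp : ∀ x ∈ s ∪ {(u, p, l)}, ∀ y ∈ s ∪ {(u, p, l)}, Q2 f g oX oY x y := by
    rintro x (hx | hx) y (hy | hy)
    · exact (hs x hx y hy x hx).1
    · rw [mem_singleton_iff] at hy
      subst hy
      refine ⟨fun c => ⟨fun h => absurd h (h1 x hx c), fun h => absurd h (h2 x hx c)⟩, ?_, ?_⟩
      · intro e1 e2 e3
        exact absurd e3 (h3 e2 x hx e1)
      · intro e1 e2
        exact absurd e2 (h4 x hx e1)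
    · rw [mem_singleton_iff] at hx
      subst hx
      refine ⟨fun c => ⟨fun h => absurd h (h1' y hy c), fun h => absurd h (h2' y hy c)⟩, ?_, ?_⟩
      · intro e1 e2 e3
        exact absurd e3.symm (h3 e1 y hy e2)
      · intro e1 e2
        exact absurd e2.symm (h4 y hy e1.symm)
    · rw [mem_singleton_iff] at hx hy
      subst hx; subst hy
      refine ⟨fun c => ?_, fun _ _ _ => ⟨1, by simp⟩, fun _ _ => ⟨1, by simp⟩⟩
      simp only
      rw [H.hfX, H.hgY]
  intro x hx y hy z hz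
  refine ⟨hp x hx y hy, ?_⟩
  intro e1 e2 e3 e4 e5
  rcases hx with hx | hx
  · rcases hy with hy | hy
    · rcases hz with hz | hz
      · exact (hs x hx y hy z hz).2 e1 e2 e3 e4 e5
      · rw [mem_singleton_iff] at hz
        subst hz
        left
        exact h5 e3 x hx y hy e1 e2 (e4.trans e5) e5
    · rw [mem_singleton_iff] at hy
      subst hy
      rcases hz with hz | hz
      · right; left
        exact h5 e2 x hx z hz e1 e3 e4 e5.symm
      · rw [mem_singleton_iff] at hz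
        subst hz
        right; right
        exact ⟨1, by simp⟩
  · rw [mem_singleton_iff] at hx
    subst hx
    rcases hy with hy | hy
    · rcases hz with hz | hz
      · right; right
        exact h5 e1 y hy z hz e2 e3 e4.symm (e4.trans e5).symm
      · rw [mem_singleton_iff] at hz
        subst hz
        right; left
        exact ⟨1, by simp⟩
    · rw [mem_singleton_iff] at hy
      subst hy
      left
      exact ⟨1, by simp⟩

/-- an orbit not touched by few atoms -/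
lemma exists_untouched {S : Type u} {κ : Cardinal.{u}} (hK : #K = κ) {s : Set S} (hs : #s < κ)
    (o : S → K) : ∃ k, ∀ a ∈ s, o a ≠ k := by
  by_contra hcon
  push Not at hcon
  have : (o '' s) = Set.univ := by
    apply eq_univ_of_forall
    intro k
    obtain ⟨a, ha, h⟩ := hcon k
    exact ⟨a, ha, h⟩
  have h1 : #(o '' s) ≤ #s := mk_image_le
  rw [this, mk_univ, hK] at h1
  exact absurd hs (not_lt.2 h1)

open Classical in
/-- the coset hit by an atom -/
noncomputable def hit (f : C →* A) (x : X) (a : X × Y × Bool) : A ⧸ f.range :=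
  if h : ∃ α : A, ∃ c, f c • a.1 = α • x then ((h.choose⁻¹ : A) : A ⧸ f.range) else ((1 : A) : A ⧸ f.range)

lemma Ctx.hit_eq (H : Ctx f g oX oY N) {x : X} {a : X × Y × Bool} {α : A} {c : C}
    (h : f c • a.1 = α • x) : ((α⁻¹ : A) : A ⧸ f.range) = hit f x a := by
  have hex : ∃ α : A, ∃ c, f c • a.1 = α • x := ⟨α, c, h⟩
  unfold hit
  rw [dif_pos hex]
  obtain ⟨c', hc'⟩ := hex.choose_spec
  set β := hex.choose with hβ
  -- `β • x = f (c' c⁻¹) • α • x`
  have e1 : β • x = f (c' * c⁻¹) • α • x := by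
    rw [← hc', ← h, smul_smul, ← map_mul, inv_mul_cancel_right]
  have e2 : ((f (c' * c⁻¹))⁻¹ * (β * α⁻¹)) • (α • x) = α • x := by
    rw [mul_smul, mul_smul, inv_smul_smul, e1, inv_smul_smul]
  have e3 := H.stX _ _ e2
  have e4 : β * α⁻¹ ∈ f.range := by
    have : β * α⁻¹ = f (c' * c⁻¹) * ((f (c' * c⁻¹))⁻¹ * (β * α⁻¹)) := by group
    rw [this]
    exact f.range.mul_mem ⟨_, rfl⟩ e3
  rw [QuotientGroup.eq]
  rw [inv_inv]
  have : α * β⁻¹ = (β * α⁻¹)⁻¹ := by group
  rw [this]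
  exact f.range.inv_mem e4

/-- separability of a pair of points -/
def Sep (f : C →* A) (κ : Cardinal.{u}) (x x' : X) : Prop :=
  ∀ Bad : Set (A ⧸ f.range), #Bad < κ → ∃ α : A, ((α⁻¹ : A) : A ⧸ f.range) ∉ Bad ∧
    ∀ c, f c • α • x ≠ α • x'

/-- find a translate of a separable pair away from few atoms -/
lemma Ctx.fresh (H : Ctx f g oX oY N) {κ : Cardinal.{u}} (hκ : ℵ₀ ≤ κ) {x x' : X}
    (hsep : Sep f κ x x') {s : Set (X × Y × Bool)} (hs : #s < κ) :
    ∃ α : A, (∀ a ∈ s, ∀ c, f c • a.1 ≠ α • x) ∧ (∀ a ∈ s, ∀ c, f c • a.1 ≠ α • x') ∧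
      ∀ c, f c • α • x ≠ α • x' := by
  have hB : #(hit f x '' s ∪ hit f x' '' s : Set (A ⧸ f.range)) < κ := by
    refine (mk_union_le _ _).trans_lt ?_
    exact add_lt_of_lt hκ (mk_image_le.trans_lt hs) (mk_image_le.trans_lt hs)
  obtain ⟨α, h1, h2⟩ := hsep _ hB
  rw [mem_union, not_or] at h1
  refine ⟨α, ?_, ?_, h2⟩
  · intro a ha c hc
    exact h1.1 ⟨a, ha, (H.hit_eq hc).symm⟩
  · intro a ha c hc
    exact h1.2 ⟨a, ha, (H.hit_eq hc).symm⟩

/-- add a pair of atoms through a new `B`-orbit -/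
lemma Ctx.addPair (H : Ctx f g oX oY N) {κ : Cardinal.{u}} (hK : #K = κ) {b₁ : B}
    (hb₁ : b₁ ∉ g.range) {s : Set (X × Y × Bool)} (hs : Good (QQ f g oX oY) s) (hsc : #s < κ)
    {u w : X} (hu : ∀ a ∈ s, ∀ c, f c • a.1 ≠ u) (hw : ∀ a ∈ s, ∀ c, f c • a.1 ≠ w)
    (huw : oX u ≠ oX w) :
    ∃ p : Y, Good (QQ f g oX oY) (s ∪ {(u, p, false)} ∪ {(w, b₁ • p, false)}) := by
  obtain ⟨k, hk⟩ := exists_untouched hK hsc (fun a => oY a.2.1)
  obtain ⟨p, hp⟩ := H.surjY k
  have hun : ∀ a ∈ s, oY a.2.1 ≠ oY p := by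
    intro a ha; rw [hp]; exact hk a ha
  have hbp : oY (b₁ • p) = oY p := ((H.hoY p (b₁ • p)).2 ⟨b₁, rfl⟩).symm
  have hfr : ∀ a ∈ s, ∀ c, g c • a.2.1 ≠ p := by
    intro a ha c hc
    exact hun a ha ((H.hoY _ _).2 ⟨g c, hc⟩)
  have hfr' : ∀ a ∈ s, ∀ c, g c • a.2.1 ≠ b₁ • p := by
    intro a ha c hc
    exact hun a ha (((H.hoY _ _).2 ⟨g c, hc⟩).trans hbp)
  refine ⟨p, ?_⟩
  have s1 : Good (QQ f g oX oY) (s ∪ {(u, p, false)}) := by
    refine H.insert hs u p false hu hfr (by simp) (fun a ha _ => hun a ha) ?_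
    intro _ a ha a' _ _ _ e
    exact absurd e (hun a ha)
  refine H.insert s1 w (b₁ • p) false ?_ ?_ (by simp) ?_ ?_
  · rintro a (ha | ha) c hc
    · exact hw a ha c hc
    · rw [mem_singleton_iff] at ha
      subst ha
      exact huw ((H.hoX _ _).2 ⟨f c, hc⟩)
  · rintro a (ha | ha) c hc
    · exact hfr' a ha c hc
    · rw [mem_singleton_iff] at ha
      subst ha
      simp only at hc
      have e1 : ((g c)⁻¹ * b₁) • p = p := by rw [mul_smul, ← hc, inv_smul_smul]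
      have e2 := H.stY _ _ e1
      apply hb₁
      have : b₁ = g c * ((g c)⁻¹ * b₁) := by group
      rw [this]
      exact g.range.mul_mem ⟨_, rfl⟩ e2
  · rintro a (ha | ha) e
    · rw [hbp]; exact hun a ha
    · rw [mem_singleton_iff] at ha
      subst ha
      exact absurd e huw
  · rintro _ a (ha | ha) a' ha' _ _ e e'
    · rw [hbp] at e
      exact absurd e (hun a ha)
    · rcases ha' with ha' | ha'
      · rw [hbp] at e'
        exact absurd e' (hun a' ha')
      · rw [mem_singleton_iff] at ha ha'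
        subst ha; subst ha'
        exact ⟨1, by simp⟩

/-- the requirements -/
def Req (f : C →* A) (g : C →* B) (oX : X → K) (κ : Cardinal.{u}) (b₁ : B) :
    X ⊕ Y ⊕ (X × X × X × X) → Set (X × Y × Bool) → Prop
  | Sum.inl x, s => ∃ a ∈ s, ∃ c, f c • a.1 = x
  | Sum.inr (Sum.inl y), s => ∃ a ∈ s, ∃ c, g c • a.2.1 = y
  | Sum.inr (Sum.inr (x, x', y, y')), s =>
      Sep f κ x x' → Sep f κ y y' → oX x ≠ oX y → oX x ≠ oX y' → oX x' ≠ oX y → oX x' ≠ oX y' →
        ∃ (α α' : A) (p p' : Y), (α • x, p, false) ∈ s ∧ (α' • y, b₁ • p, false) ∈ s ∧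
          (α • x', p', false) ∈ s ∧ (α' • y', b₁ • p', false) ∈ s

lemma Ctx.step (H : Ctx f g oX oY N) {κ : Cardinal.{u}} (hκ : ℵ₀ ≤ κ) (hK : #K = κ) {b₁ : B}
    (hb₁ : b₁ ∉ g.range) (T : X ⊕ Y ⊕ (X × X × X × X)) (s : Set (X × Y × Bool))
    (hs : Good (QQ f g oX oY) s) (hsc : #s < κ) :
    ∃ F : Set (X × Y × Bool), F.Finite ∧ Good (QQ f g oX oY) (s ∪ F) ∧
      Req f g oX κ b₁ T (s ∪ F) := by
  rcases T with x | y | ⟨x, x', y, y'⟩
  · by_cases hx : ∃ a ∈ s, ∃ c, f c • a.1 = x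
    · exact ⟨∅, finite_empty, by rwa [union_empty], by rwa [union_empty]⟩
    · push Not at hx
      obtain ⟨k, hk⟩ := exists_untouched hK hsc (fun a => oY a.2.1)
      obtain ⟨p, hp⟩ := H.surjY k
      have hun : ∀ a ∈ s, oY a.2.1 ≠ oY p := by
        intro a ha; rw [hp]; exact hk a ha
      refine ⟨{(x, p, false)}, finite_singleton _, ?_, ⟨(x, p, false), Or.inr rfl, 1, by simp⟩⟩
      refine H.insert hs x p false hx ?_ (by simp) (fun a ha _ => hun a ha) ?_
      · intro a ha c hc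
        exact hun a ha ((H.hoY _ _).2 ⟨g c, hc⟩)
      · intro _ a ha a' _ _ _ e
        exact absurd e (hun a ha)
  · by_cases hy : ∃ a ∈ s, ∃ c, g c • a.2.1 = y
    · exact ⟨∅, finite_empty, by rwa [union_empty], by rwa [union_empty]⟩
    · push Not at hy
      obtain ⟨k, hk⟩ := exists_untouched hK hsc (fun a => oX a.1)
      obtain ⟨u, hu⟩ := H.surjX k
      have hun : ∀ a ∈ s, oX a.1 ≠ oX u := by
        intro a ha; rw [hu]; exact hk a ha
      refine ⟨{(u, y, true)}, finite_singleton _, ?_, ⟨(u, y, true), Or.inr rfl, 1, by simp⟩⟩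
      refine H.insert hs u y true ?_ hy (fun _ a ha _ => hun a ha) ?_ (by simp)
      · intro a ha c hc
        exact hun a ha ((H.hoX _ _).2 ⟨f c, hc⟩)
      · intro a ha e
        exact absurd e (hun a ha)
  · by_cases hh : Sep f κ x x' ∧ Sep f κ y y' ∧ oX x ≠ oX y ∧ oX x ≠ oX y' ∧ oX x' ≠ oX y ∧
      oX x' ≠ oX y'
    · obtain ⟨h1, h2, h3, h4, h5, h6⟩ := hh
      obtain ⟨α, a1, a2, a3⟩ := H.fresh hκ h1 hsc
      obtain ⟨α', b1, b2, b3⟩ := H.fresh hκ h2 hsc
      have oa : ∀ (a : A) (z : X), oX (a • z) = oX z := fun a z => ((H.hoX z (a • z)).2 ⟨a, rfl⟩).symm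
      obtain ⟨p, hp⟩ := H.addPair hK hb₁ hs hsc a1 b1 (by rw [oa, oa]; exact h3)
      set s1 := s ∪ {(α • x, p, false)} ∪ {(α' • y, b₁ • p, false)} with hs1
      have hs1c : #s1 < κ := by
        rw [hs1]
        refine (mk_union_le _ _).trans_lt ?_
        have one : (1 : Cardinal.{u}) < κ := lt_of_lt_of_le one_lt_aleph0 hκ
        refine add_lt_of_lt hκ ((mk_union_le _ _).trans_lt (add_lt_of_lt hκ hsc ?_)) ?_
        · rw [mk_singleton]; exact one
        · rw [mk_singleton]; exact one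
      obtain ⟨p', hp'⟩ := H.addPair hK hb₁ hp hs1c (u := α • x') (w := α' • y') (by
        rintro a ((ha | ha) | ha) c hc
        · exact a2 a ha c hc
        · rw [mem_singleton_iff] at ha
          subst ha
          exact a3 c hc
        · rw [mem_singleton_iff] at ha
          subst ha
          have := (H.hoX _ _).2 ⟨f c, hc⟩
          simp only [oa] at this
          exact h5 this.symm) (by
        rintro a ((ha | ha) | ha) c hc
        · exact b2 a ha c hc
        · rw [mem_singleton_iff] at ha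
          subst ha
          have := (H.hoX _ _).2 ⟨f c, hc⟩
          simp only [oa] at this
          exact h4 this
        · rw [mem_singleton_iff] at ha
          subst ha
          exact b3 c hc) (by rw [oa, oa]; exact h6)
      refine ⟨{(α • x, p, false), (α' • y, b₁ • p, false), (α • x', p', false),
        (α' • y', b₁ • p', false)}, by simp, ?_, ?_⟩
      · have e : s ∪ {(α • x, p, false), (α' • y, b₁ • p, false), (α • x', p', false),
          (α' • y', b₁ • p', false)} = s1 ∪ {(α • x', p', false)} ∪ {(α' • y', b₁ • p', false)} := by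
          rw [hs1]; ext z; simp only [mem_union, mem_insert_iff, mem_singleton_iff]; tauto
        rw [e]; exact hp'
      · intro _ _ _ _ _ _
        exact ⟨α, α', p, p', Or.inr (by simp), Or.inr (by simp), Or.inr (by simp),
          Or.inr (by simp)⟩
    · refine ⟨∅, finite_empty, by rwa [union_empty], ?_⟩
      intro h1 h2 h3 h4 h5 h6
      exact absurd ⟨h1, h2, h3, h4, h5, h6⟩ hh

lemma Req_mono {κ : Cardinal.{u}} {b₁ : B} (T : X ⊕ Y ⊕ (X × X × X × X))
    (s t : Set (X × Y × Bool)) (hst : s ⊆ t) (h : Req f g oX κ b₁ T s) :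
    Req f g oX κ b₁ T t := by
  rcases T with x | y | ⟨x, x', y, y'⟩
  · obtain ⟨a, ha, h⟩ := h
    exact ⟨a, hst ha, h⟩
  · obtain ⟨a, ha, h⟩ := h
    exact ⟨a, hst ha, h⟩
  · intro h1 h2 h3 h4 h5 h6
    obtain ⟨α, α', p, p', k1, k2, k3, k4⟩ := h h1 h2 h3 h4 h5 h6
    exact ⟨α, α', p, p', hst k1, hst k2, hst k3, hst k4⟩

/-- the complete set of atoms -/
lemma Ctx.exists_total (H : Ctx f g oX oY N) {κ : Cardinal.{u}} (hκ : ℵ₀ ≤ κ) (hK : #K = κ)
    {b₁ : B} (hb₁ : b₁ ∉ g.range) (hX : #X ≤ κ) (hY : #Y ≤ κ) :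
    ∃ s, Good (QQ f g oX oY) s ∧ ∀ T, Req f g oX κ b₁ T s := by
  have hne : Nonempty K := by
    rw [← mk_ne_zero_iff, hK]
    exact (lt_of_lt_of_le aleph0_pos hκ).ne'
  obtain ⟨x0, _⟩ := H.surjX hne.some
  have hT : #(X ⊕ Y ⊕ (X × X × X × X)) ≤ κ := by
    simp only [mk_sum, mk_prod, lift_id]
    have hXX : #X * #X ≤ κ := (mul_le_mul' hX hX).trans (mul_eq_self hκ).le
    have h3 : #X * (#X * #X) ≤ κ := (mul_le_mul' hX hXX).trans (mul_eq_self hκ).le
    have h4 : #X * (#X * (#X * #X)) ≤ κ := (mul_le_mul' hX h3).trans (mul_eq_self hκ).le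
    exact add_le_of_le hκ hX (add_le_of_le hκ hY h4)
  let ι := κ.ord.ToType
  have hιc : #ι = κ := mk_ord_toType κ
  have hι : ∀ i : ι, #(Iio i) < κ := by
    intro i
    have := mk_Iio_lt i (by simp [ι])
    rwa [hιc] at this
  have hTne : Nonempty (X ⊕ Y ⊕ (X × X × X × X)) := ⟨Sum.inl x0⟩
  rw [← hιc] at hT
  obtain ⟨e⟩ := (Cardinal.le_def _ _).1 hT
  let τ : ι → X ⊕ Y ⊕ (X × X × X × X) := Function.invFun e
  have hτ : Function.Surjective τ := Function.invFun_surjective e.injective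
  obtain ⟨s, h1, h2⟩ := builder hκ hι (QQ f g oX oY) (fun i => Req f g oX κ b₁ (τ i))
    (fun i s t hst => Req_mono (τ i) s t hst)
    (fun i s hs hsc => H.step hκ hK hb₁ (τ i) s hs hsc)
  refine ⟨s, h1, fun T => ?_⟩
  obtain ⟨i, rfl⟩ := hτ T
  exact h2 i

end Pool.Agent.Helper793.MS
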