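import Pool.Agent.Helper793.MS.Sigma

set_option autoImplicit false

open Cardinal Set

universe u v

namespace Pool.Agent.Helper793.MS

/-- a sum of `K` many copies of the regular action of `A ⧸ NA` -/
def FreeX (A : Type u) [Group A] (NA : Subgroup A) (K : Type u) : Type u := (A ⧸ NA) × K

instance (A : Type u) [Group A] (NA : Subgroup A) (K : Type u) : MulAction A (FreeX A NA K) where
  smul a x := (a • x.1, x.2)
  one_smul x := by
    show ((1:A) • x.1, x.2) = x
    rw [one_smul]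
    rfl
  mul_smul a b x := by
    show ((a * b) • x.1, x.2) = (a • b • x.1, x.2)
    rw [mul_smul]

lemma freeX_smul {A : Type u} [Group A] {NA : Subgroup A} {K : Type u} (a : A)
    (x : FreeX A NA K) : a • x = (a • x.1, x.2) := rfl

lemma freeX_fix {A : Type u} [Group A] {NA : Subgroup A} [NA.Normal] {K : Type u} (a : A)
    (x : FreeX A NA K) : a • x = x ↔ a ∈ NA := by
  obtain ⟨q, k⟩ := x
  obtain ⟨b, rfl⟩ := QuotientGroup.mk_surjective q
  rw [freeX_smul]
  have h1 : a • ((b : A) : A ⧸ NA) = ((a * b : A) : A ⧸ NA) := rfl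
  constructor
  · intro h
    have h2 : ((a * b : A) : A ⧸ NA) = (b : A ⧸ NA) := by
      rw [← h1]; exact congrArg Prod.fst h
    rw [eq_comm, QuotientGroup.eq] at h2
    have := Subgroup.Normal.conj_mem (inferInstance : NA.Normal) _ h2 b
    have e : b * (b⁻¹ * (a * b)) * b⁻¹ = a := by group
    rwa [e] at this
  · intro h
    have h2 : ((a * b : A) : A ⧸ NA) = (b : A ⧸ NA) := by
      rw [eq_comm, QuotientGroup.eq]
      have := Subgroup.Normal.conj_mem (inferInstance : NA.Normal) _ h b⁻¹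
      rw [inv_inv] at this
      rwa [← mul_assoc]
    show (a • ((b : A) : A ⧸ NA), k) = ((b : A ⧸ NA), k)
    rw [h1, h2]

lemma freeX_orb {A : Type u} [Group A] {NA : Subgroup A} {K : Type u} (x x' : FreeX A NA K) :
    x.2 = x'.2 ↔ ∃ a : A, a • x = x' := by
  constructor
  · intro h
    obtain ⟨q, k⟩ := x
    obtain ⟨q', k'⟩ := x'
    obtain ⟨a, ha⟩ := MulAction.exists_smul_eq A q q'
    refine ⟨a, ?_⟩
    rw [freeX_smul]
    simp only at h ha ⊢
    rw [ha, h]
  · rintro ⟨a, rfl⟩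
    rfl

lemma card_quot {A C : Type u} [Group A] [Group C] (f : C →* A) (NA : Subgroup A) [NA.Normal]
    {κ : Cardinal.{u}} (hκ : ℵ₀ ≤ κ) (h1 : #(A ⧸ f.range) ≤ κ) (h2 : #(C ⧸ NA.comap f) ≤ κ) :
    #(A ⧸ NA) ≤ κ := by
  have hs : Function.Surjective (fun p : (A ⧸ f.range) × (C ⧸ NA.comap f) =>
      ((p.1.out * f p.2.out : A) : A ⧸ NA)) := by
    intro q
    obtain ⟨a, rfl⟩ := QuotientGroup.mk_surjective q
    have e1 : ((a : A ⧸ f.range).out : A ⧸ f.range) = (a : A ⧸ f.range) := Quotient.out_eq' _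
    rw [QuotientGroup.eq] at e1
    obtain ⟨c, hc⟩ := e1
    have e2 : ((c : C ⧸ NA.comap f).out : C ⧸ NA.comap f) = (c : C ⧸ NA.comap f) :=
      Quotient.out_eq' _
    rw [QuotientGroup.eq, Subgroup.mem_comap] at e2
    refine ⟨((a : A ⧸ f.range), (c : C ⧸ NA.comap f)), ?_⟩
    simp only
    rw [QuotientGroup.eq]
    have e3 : ((a : A ⧸ f.range).out * f (c : C ⧸ NA.comap f).out)⁻¹ * a =
        f ((c : C ⧸ NA.comap f).out⁻¹ * c) := by
      rw [map_mul, map_inv, hc]
      group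
    rw [e3]; exact e2
  have h3 := mk_le_of_surjective hs
  rw [mk_prod, lift_id, lift_id] at h3
  exact h3.trans ((mul_le_mul' h1 h2).trans (mul_eq_self hκ).le)

theorem maximal_of_amalgam {A B C : Type u} {G : Type v} [Group A] [Group B] [Group C] [Group G]
    (f : C →* A) (g : C →* B) (iA : A →* G) (iB : B →* G) (comm : ∀ c, iA (f c) = iB (g c))
    (injA : Function.Injective iA) (injB : Function.Injective iB)
    (hgen : ∀ p : G → Prop, p 1 → (∀ a x, p x → p (iA a * x)) → (∀ b x, p x → p (iB b * x)) →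
      ∀ x, p x)
    (hlift : ∀ (X : Type u) (ρA : A →* Equiv.Perm X) (ρB : B →* Equiv.Perm X),
      (∀ c, ρA (f c) = ρB (g c)) → ∃ ρ : G →* Equiv.Perm X,
        (∀ a, ρ (iA a) = ρA a) ∧ ∀ b, ρ (iB b) = ρB b)
    (hκ : ℵ₀ ≤ #(A ⧸ f.range)) (hB : ℵ₀ ≤ #(B ⧸ g.range)) (hBA : #(B ⧸ g.range) ≤ #(A ⧸ f.range))
    (hC : #(C ⧸ ((iA.comp f).range.normalCore).comap (iA.comp f)) ≤ #(A ⧸ f.range)) :
    ∃ M : Subgroup G, IsCoatom M := by
  set κ := #(A ⧸ f.range) with hκdef
  set M₀ := (iA.comp f).range.normalCore with hM₀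
  have hM₀le : M₀ ≤ (iA.comp f).range := Subgroup.normalCore_le _
  let NA : Subgroup A := M₀.comap iA
  let NB : Subgroup B := M₀.comap iB
  have hNA : NA.Normal := inferInstance
  have hNB : NB.Normal := inferInstance
  let N : Subgroup C := M₀.comap (iA.comp f)
  have eNA : NA.comap f = N := rfl
  have eNB : NB.comap g = N := by
    ext c
    show iB (g c) ∈ M₀ ↔ iA (f c) ∈ M₀
    rw [comm]
  let K : Type u := κ.ord.ToType
  have hK : #K = κ := mk_ord_toType κ
  let X := FreeX A NA K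
  let Y := FreeX B NB K
  let oX : X → K := fun x => x.2
  let oY : Y → K := fun y => y.2
  have hNAf : ∀ a ∈ NA, a ∈ f.range := by
    intro a ha
    obtain ⟨c, hc⟩ := hM₀le ha
    exact ⟨c, injA hc⟩
  have hNBg : ∀ b ∈ NB, b ∈ g.range := by
    intro b hb
    obtain ⟨c, hc⟩ := hM₀le hb
    refine ⟨c, injB ?_⟩
    rw [← comm]; exact hc
  have H : Ctx (X := X) (Y := Y) f g oX oY N :=
    { hoX := fun x x' => freeX_orb x x'
      hoY := fun y y' => freeX_orb y y'
      hfX := fun x c => freeX_fix (f c) x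
      hgY := fun y c => by
        rw [freeX_fix (g c) y, ← eNB]; rfl
      stX := fun x a h => hNAf a ((freeX_fix a x).1 h)
      stY := fun y b h => hNBg b ((freeX_fix b y).1 h)
      surjX := fun k => ⟨(((1 : A) : A ⧸ NA), k), rfl⟩
      surjY := fun k => ⟨(((1 : B) : B ⧸ NB), k), rfl⟩ }
  have hXc : #X ≤ κ := by
    show #((A ⧸ NA) × K) ≤ κ
    rw [mk_prod, lift_id, lift_id, hK]
    exact (mul_le_mul' (card_quot f NA hκ le_rfl hC) le_rfl).trans (mul_eq_self hκ).le
  have hYc : #Y ≤ κ := by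
    show #((B ⧸ NB) × K) ≤ κ
    rw [mk_prod, lift_id, lift_id, hK]
    refine (mul_le_mul' (card_quot g NB hκ hBA ?_) le_rfl).trans (mul_eq_self hκ).le
    rw [eNB]; exact hC
  have hBinf : Infinite (B ⧸ g.range) := Cardinal.infinite_iff.2 hB
  obtain ⟨q, hq⟩ := exists_ne ((1 : B) : B ⧸ g.range)
  obtain ⟨b₁, rfl⟩ := QuotientGroup.mk_surjective q
  have hb₁ : b₁ ∉ g.range := by
    intro h
    apply hq
    rw [QuotientGroup.eq]
    rw [mul_one]; exact g.range.inv_mem h
  obtain ⟨σ, heq, P1, P2, P3⟩ := H.exists_equiv hκ hK hB hb₁ hXc hYc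
  -- the action
  let ρA : A →* Equiv.Perm X := MulAction.toPermHom A X
  let ρB : B →* Equiv.Perm X := (σ.symm.permCongrHom).toMonoidHom.comp (MulAction.toPermHom B Y)
  have hρA : ∀ a x, ρA a x = a • x := fun a x => rfl
  have hρB : ∀ b x, ρB b x = σ.symm (b • σ x) := fun b x => rfl
  obtain ⟨ρ, rA, rB⟩ := hlift X ρA ρB (by
    intro c
    ext x
    rw [hρA, hρB, ← heq, Equiv.symm_apply_apply])
  have rA' : ∀ a x, ρ (iA a) x = a • x := fun a x => by rw [rA, hρA]
  have rB' : ∀ b x, ρ (iB b) x = σ.symm (b • σ x) := fun b x => by rw [rB, hρB]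
  have oa : ∀ (a : A) (z : X), oX (a • z) = oX z := fun a z => ((H.hoX z (a • z)).2 ⟨a, rfl⟩).symm
  have ob : ∀ (b : B) (z : Y), oY (b • z) = oY z := fun b z => ((H.hoY z (b • z)).2 ⟨b, rfl⟩).symm
  -- avoiding few cosets
  have avoid : ∀ Bad : Set (A ⧸ f.range), #Bad < κ → ∃ α : A, ((α⁻¹ : A) : A ⧸ f.range) ∉ Bad := by
    intro Bad hBad
    obtain ⟨k, hk⟩ := exists_untouched (K := A ⧸ f.range) rfl hBad id
    obtain ⟨a, rfl⟩ := QuotientGroup.mk_surjective k
    refine ⟨a⁻¹, ?_⟩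
    rw [inv_inv]
    intro h
    exact hk _ h rfl
  have sep_of_ne : ∀ x x' : X, oX x ≠ oX x' → Sep f κ x x' := by
    intro x x' hne Bad hBad
    obtain ⟨α, hα⟩ := avoid Bad hBad
    refine ⟨α, hα, fun c hc => hne ?_⟩
    rw [← oa α x, ← oa α x', ← hc]
    exact (oa (f c) _).symm
  -- pairs that are not separable lie in one orbit
  have same_of_not_sep : ∀ x x' : X, ¬ Sep f κ x x' → oX x = oX x' := by
    intro x x' h
    by_contra hne
    exact h (sep_of_ne x x' hne)
  have key : ∀ x x' : X, x ≠ x' → ∃ h, Sep f κ (ρ h x) (ρ h x') := by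
    intro x x' hne
    by_contra hcon
    push Not at hcon
    have s1 : ∀ h, oX (ρ h x) = oX (ρ h x') := fun h => same_of_not_sep _ _ (hcon h)
    have s2 : ∀ h, oY (σ (ρ h x)) = oY (σ (ρ h x')) := by
      intro h
      by_contra hne2
      obtain ⟨b, hb⟩ := P2 _ _ hne2
      apply hb
      have := s1 (iB b * h)
      rw [map_mul, Equiv.Perm.mul_apply, Equiv.Perm.mul_apply, rB', rB'] at this
      exact this
    have s3 : ∀ h, ∃ c, f c • ρ h x = ρ h x' := fun h => P1 _ _ (s1 h) (s2 h)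
    obtain ⟨c₀, hc₀⟩ := s3 1
    rw [map_one] at hc₀
    have hc₀' : f c₀ • x = x' := hc₀
    have s4 : ∀ h : G, h * iA (f c₀) * h⁻¹ ∈ (iA.comp f).range := by
      apply hgen
      · rw [one_mul, inv_one, mul_one]
        exact ⟨c₀, rfl⟩
      · rintro a h ⟨d, hd⟩
        have hd' : iA (f d) = h * iA (f c₀) * h⁻¹ := hd
        obtain ⟨e, he⟩ := s3 (iA a * h)
        have e1 : ρ (iA a * h) x = a • ρ h x := by
          rw [map_mul, Equiv.Perm.mul_apply, rA']
        have e2 : ρ (iA a * h) x' = a • f d • ρ h x := by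
          have : iA a * h * iA (f c₀) = iA a * iA (f d) * h := by rw [hd']; group
          rw [← hc₀', ← rA' (f c₀) x, ← Equiv.Perm.mul_apply, ← map_mul, this, map_mul, map_mul,
            Equiv.Perm.mul_apply, Equiv.Perm.mul_apply, rA', rA']
        rw [e1, e2] at he
        have e3 : ((f e)⁻¹ * (a * f d * a⁻¹)) • (a • ρ h x) = a • ρ h x := by
          rw [mul_smul, inv_smul_eq_iff, he, mul_smul, mul_smul, inv_smul_smul]
        have e4 := H.stX _ _ e3
        have e5 : a * f d * a⁻¹ ∈ f.range := by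
          have : a * f d * a⁻¹ = f e * ((f e)⁻¹ * (a * f d * a⁻¹)) := by group
          rw [this]
          exact f.range.mul_mem ⟨_, rfl⟩ e4
        obtain ⟨e', he'⟩ := e5
        refine ⟨e', ?_⟩
        show iA (f e') = _
        rw [he', map_mul, map_mul, map_inv, hd']
        group
      · rintro b h ⟨d, hd⟩
        have hd' : iB (g d) = h * iA (f c₀) * h⁻¹ := by rw [← comm]; exact hd
        obtain ⟨e, he⟩ := s3 (iB b * h)
        have e1 : ρ (iB b * h) x = σ.symm (b • σ (ρ h x)) := by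
          rw [map_mul, Equiv.Perm.mul_apply, rB']
        have e2 : ρ (iB b * h) x' = σ.symm (b • g d • σ (ρ h x)) := by
          have : iB b * h * iA (f c₀) = iB b * iB (g d) * h := by rw [hd']; group
          rw [← hc₀', ← rA' (f c₀) x, ← Equiv.Perm.mul_apply, ← map_mul, this, map_mul, map_mul,
            Equiv.Perm.mul_apply, Equiv.Perm.mul_apply, rB', rB', Equiv.apply_symm_apply]
        rw [e1, e2] at he
        have he2 : g e • b • σ (ρ h x) = b • g d • σ (ρ h x) := by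
          have := congrArg σ he
          rwa [heq, Equiv.apply_symm_apply, Equiv.apply_symm_apply] at this
        have e3 : ((g e)⁻¹ * (b * g d * b⁻¹)) • (b • σ (ρ h x)) = b • σ (ρ h x) := by
          rw [mul_smul, inv_smul_eq_iff, he2, mul_smul, mul_smul, inv_smul_smul]
        have e4 := H.stY _ _ e3
        have e5 : b * g d * b⁻¹ ∈ g.range := by
          have : b * g d * b⁻¹ = g e * ((g e)⁻¹ * (b * g d * b⁻¹)) := by group
          rw [this]
          exact g.range.mul_mem ⟨_, rfl⟩ e4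
        obtain ⟨e', he'⟩ := e5
        refine ⟨e', ?_⟩
        show iA (f e') = _
        rw [comm, he', map_mul, map_mul, map_inv, hd']
        group
    have s5 : iA (f c₀) ∈ M₀ := s4
    have s6 : f c₀ • x = x := (H.hfX x c₀).2 s5
    exact hne (s6.symm.trans hc₀')
  -- two-transitivity
  have h3 : ∀ x x' y y' : X, Sep f κ x x' → Sep f κ y y' → oX x ≠ oX y → oX x ≠ oX y' →
      oX x' ≠ oX y → oX x' ≠ oX y' → ∃ h, ρ h x = y ∧ ρ h x' = y' := by
    intro x x' y y' h1 h2 h3 h4 h5 h6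
    obtain ⟨α, α', k1, k2⟩ := P3 x x' y y' h1 h2 h3 h4 h5 h6
    refine ⟨iA α'⁻¹ * iB b₁ * iA α, ?_, ?_⟩
    · rw [map_mul, map_mul, Equiv.Perm.mul_apply, Equiv.Perm.mul_apply, rA', rA', rB', ← k1,
        Equiv.symm_apply_apply, inv_smul_smul]
    · rw [map_mul, map_mul, Equiv.Perm.mul_apply, Equiv.Perm.mul_apply, rA', rA', rB', ← k2,
        Equiv.symm_apply_apply, inv_smul_smul]
  have hKinf : Infinite K := Cardinal.infinite_iff.2 (by rw [hK]; exact hκ)
  have htrans : ∀ x x' y y' : X, x ≠ x' → y ≠ y' → ∃ h, ρ h x = y ∧ ρ h x' = y' := by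
    intro x x' y y' hx hy
    obtain ⟨h1, hs1⟩ := key x x' hx
    obtain ⟨h2, hs2⟩ := key y y' hy
    classical
    obtain ⟨k, hk⟩ := Infinite.exists_notMem_finset
      ({oX (ρ h1 x), oX (ρ h1 x'), oX (ρ h2 y), oX (ρ h2 y')} : Finset K)
    obtain ⟨k', hk'⟩ := Infinite.exists_notMem_finset
      ({k, oX (ρ h1 x), oX (ρ h1 x'), oX (ρ h2 y), oX (ρ h2 y')} : Finset K)
    simp only [Finset.mem_insert, Finset.mem_singleton, not_or] at hk hk'
    obtain ⟨z, hz⟩ := H.surjX k
    obtain ⟨z', hz'⟩ := H.surjX k'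
    have hzz : Sep f κ z z' := by
      apply sep_of_ne
      rw [hz, hz']; exact fun h => hk'.1 h.symm
    obtain ⟨j1, a1, a2⟩ := h3 _ _ z z' hs1 hzz (by rw [hz]; exact fun h => hk.1 h.symm)
      (by rw [hz']; exact fun h => hk'.2.1 h.symm) (by rw [hz]; exact fun h => hk.2.1 h.symm)
      (by rw [hz']; exact fun h => hk'.2.2.1 h.symm)
    obtain ⟨j2, b1, b2⟩ := h3 z z' _ _ hzz hs2 (by rw [hz]; exact hk.2.2.1)
      (by rw [hz]; exact hk.2.2.2) (by rw [hz']; exact hk'.2.2.2.1)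
      (by rw [hz']; exact hk'.2.2.2.2)
    refine ⟨h2⁻¹ * j2 * j1 * h1, ?_, ?_⟩
    · simp only [map_mul, Equiv.Perm.mul_apply]
      rw [a1, b1, map_inv, Equiv.Perm.inv_eq_iff_eq]
    · simp only [map_mul, Equiv.Perm.mul_apply]
      rw [a2, b2, map_inv, Equiv.Perm.inv_eq_iff_eq]
  -- the point stabiliser
  obtain ⟨k, k', hkk⟩ := exists_pair_ne K
  obtain ⟨x0, hx0⟩ := H.surjX k
  obtain ⟨x1, hx1⟩ := H.surjX k'
  have hx01 : x0 ≠ x1 := by
    intro h; apply hkk; rw [← hx0, ← hx1, h]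
  refine ⟨(MulAction.stabilizer (Equiv.Perm X) x0).comap ρ, ?_, ?_⟩
  · intro htop
    obtain ⟨h, h1, h2⟩ := htrans x0 x1 x1 x0 hx01 hx01.symm
    have : h ∈ (MulAction.stabilizer (Equiv.Perm X) x0).comap ρ := by rw [htop]; trivial
    have h3 : ρ h x0 = x0 := this
    rw [h1] at h3
    exact hx01 h3.symm
  · intro L hL
    rw [SetLike.lt_iff_le_and_exists] at hL
    obtain ⟨hle, h, hhL, hh⟩ := hL
    have hh0 : ρ h x0 ≠ x0 := fun e => hh e
    rw [Subgroup.eq_top_iff']
    intro j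
    by_cases hj : ρ j x0 = x0
    · exact hle hj
    · obtain ⟨m, hm1, hm2⟩ := htrans x0 (ρ h x0) x0 (ρ j x0) hh0.symm (fun e => hj e.symm)
      have hmL : m ∈ L := hle hm1
      have h4 : (m * h)⁻¹ * j ∈ L := by
        apply hle
        show ρ ((m * h)⁻¹ * j) x0 = x0
        rw [map_mul, map_inv, Equiv.Perm.mul_apply, Equiv.Perm.inv_eq_iff_eq, map_mul,
          Equiv.Perm.mul_apply, hm2]
      have : j = (m * h) * ((m * h)⁻¹ * j) := by group
      rw [this]
      exact L.mul_mem (L.mul_mem hmL hhL) h4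

end Pool.Agent.Helper793.MS
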