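import Pool.Agent.Helper793.MS.Zorn

set_option autoImplicit false

open Cardinal Set Monoid

universe u v

namespace Pool.Agent.Helper793.MS

variable {G : Bool → Type u} [∀ i, Group (G i)] {H : Type u} [Group H] {φ : ∀ i, H →* G i}

lemma push_gen (i : Bool) (p : PushoutI φ → Prop) (h1 : p 1)
    (ha : ∀ a x, p x → p (PushoutI.of i a * x)) (hb : ∀ b x, p x → p (PushoutI.of (!i) b * x)) :
    ∀ x, p x := by
  have hall : ∀ (j : Bool) (a : G j) x, p x → p (PushoutI.of j a * x) := by
    intro j
    cases i <;> cases j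
    · exact ha
    · exact hb
    · exact hb
    · exact ha
  have key : ∀ y : PushoutI φ, ∀ x, p x → p (y * x) := by
    intro y
    induction y using PushoutI.induction_on with
    | of j a => exact hall j a
    | base h =>
      intro x hx
      rw [← PushoutI.of_apply_eq_base φ true]
      exact hall true _ x hx
    | mul y z ihy ihz =>
      intro x hx
      rw [mul_assoc]
      exact ihy _ (ihz _ hx)
  intro x
  have := key x 1 h1
  rwa [mul_one] at this

lemma push_lift (i : Bool) {K : Type v} [Group K] (ρA : G i →* K) (ρB : G (!i) →* K)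
    (h : ∀ c, ρA (φ i c) = ρB (φ (!i) c)) :
    ∃ ρ : PushoutI φ →* K, (∀ a, ρ (PushoutI.of i a) = ρA a) ∧
      ∀ b, ρ (PushoutI.of (!i) b) = ρB b := by
  cases i
  · let f : ∀ j, G j →* K := fun j => match j with
      | false => ρA
      | true => ρB
    refine ⟨PushoutI.lift f (ρA.comp (φ false)) ?_, fun a => ?_, fun b => ?_⟩
    · intro j
      cases j
      · rfl
      · ext c; exact (h c).symm
    · rw [PushoutI.lift_of]
    · exact PushoutI.lift_of f _ _ b
  · let f : ∀ j, G j →* K := fun j => match j with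
      | true => ρA
      | false => ρB
    refine ⟨PushoutI.lift f (ρA.comp (φ true)) ?_, fun a => ?_, fun b => ?_⟩
    · intro j
      cases j
      · ext c; exact (h c).symm
      · rfl
    · rw [PushoutI.lift_of]
    · exact PushoutI.lift_of f _ _ b

lemma push_range_ne_top (hφ : ∀ i, Function.Injective (φ i))
    (hs : ∀ i, ¬ Function.Surjective (φ i)) (i : Bool) :
    (PushoutI.of (φ := φ) i).range ≠ ⊤ := by
  intro htop
  apply hs (!i)
  intro b
  have h1 : PushoutI.of (φ := φ) (!i) b ∈ (PushoutI.of (φ := φ) i).range ⊓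
      (PushoutI.of (φ := φ) (!i)).range := by
    refine ⟨?_, ⟨b, rfl⟩⟩
    rw [htop]; trivial
  rw [PushoutI.inf_of_range_eq_base_range hφ (by cases i <;> simp)] at h1
  obtain ⟨c, hc⟩ := h1
  refine ⟨c, PushoutI.of_injective hφ (!i) ?_⟩
  rw [PushoutI.of_apply_eq_base]
  exact hc

lemma push_sup (i : Bool) :
    (PushoutI.of (φ := φ) i).range ⊔ (PushoutI.of (φ := φ) (!i)).range = ⊤ := by
  rw [eq_top_iff]
  intro x _
  refine push_gen i (fun x => x ∈ (PushoutI.of (φ := φ) i).range ⊔
    (PushoutI.of (φ := φ) (!i)).range) (one_mem _) ?_ ?_ x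
  · intro a x hx
    exact mul_mem (Subgroup.mem_sup_left ⟨a, rfl⟩) hx
  · intro b x hx
    exact mul_mem (Subgroup.mem_sup_right ⟨b, rfl⟩) hx

/-- one factor is finitely generated over the amalgamated subgroup -/
theorem push_fg (hφ : ∀ i, Function.Injective (φ i)) (hs : ∀ i, ¬ Function.Surjective (φ i))
    (i : Bool) (F : Finset (G i)) (hF : (φ i).range ⊔ Subgroup.closure (F : Set (G i)) = ⊤) :
    ∃ M : Subgroup (PushoutI φ), IsCoatom M := by
  have key : ∀ j : Bool, ∀ F : Finset (G (!j)),
      (φ (!j)).range ⊔ Subgroup.closure (F : Set (G (!j))) = ⊤ →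
      ∃ M : Subgroup (PushoutI φ), IsCoatom M := by
    intro j F hF
    exact maximal_of_fg (φ j) (φ (!j)) (PushoutI.of j) (PushoutI.of (!j))
      (fun c => by rw [PushoutI.of_apply_eq_base, PushoutI.of_apply_eq_base])
      (push_sup j) (push_range_ne_top hφ hs j) F hF
  cases i
  · exact key true F hF
  · exact key false F hF

/-- the cardinality theorem -/
theorem push_card (hφ : ∀ i, Function.Injective (φ i)) (hs : ∀ i, ¬ Function.Surjective (φ i))
    (i : Bool)
    (hC : #(H ⧸ ((PushoutI.base φ).range.normalCore).comap (PushoutI.base φ)) ≤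
      #(G i ⧸ (φ i).range)) :
    ∃ M : Subgroup (PushoutI φ), IsCoatom M := by
  by_cases hfin : ∃ j, Finite (G j ⧸ (φ j).range)
  · obtain ⟨j, hj⟩ := hfin
    obtain ⟨F, hF⟩ := fg_of_finite_index (φ j) hj
    exact push_fg hφ hs j F hF
  · push Not at hfin
    have hinf : ∀ j, ℵ₀ ≤ #(G j ⧸ (φ j).range) := by
      intro j
      exact Cardinal.infinite_iff.1 (hfin j)
    have key : ∀ j : Bool, #(G (!j) ⧸ (φ (!j)).range) ≤ #(G j ⧸ (φ j).range) →
        #(H ⧸ ((PushoutI.base φ).range.normalCore).comap (PushoutI.base φ)) ≤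
          #(G j ⧸ (φ j).range) → ∃ M : Subgroup (PushoutI φ), IsCoatom M := by
      intro j h1 h2
      have e : (PushoutI.of (φ := φ) j).comp (φ j) = PushoutI.base φ :=
        PushoutI.of_comp_eq_base j
      refine maximal_of_amalgam (φ j) (φ (!j)) (PushoutI.of j) (PushoutI.of (!j))
        (fun c => by rw [PushoutI.of_apply_eq_base, PushoutI.of_apply_eq_base])
        (PushoutI.of_injective hφ j) (PushoutI.of_injective hφ (!j))
        (push_gen j) (fun X ρA ρB h => push_lift j ρA ρB h) (hinf j) (hinf (!j)) h1 ?_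
      rw [e]; exact h2
    rcases le_total (#(G (!i) ⧸ (φ (!i)).range)) (#(G i ⧸ (φ i).range)) with h | h
    · exact key i h hC
    · refine key (!i) ?_ (hC.trans h)
      cases i
      · exact h
      · exact h

end Pool.Agent.Helper793.MS
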