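import Pool.Agent.Helper793.MS.Constr

set_option autoImplicit false

open Cardinal Set

universe u

namespace Pool.Agent.Helper793.MS

variable {A B C X Y K : Type u} [Group A] [Group B] [Group C] [MulAction A X] [MulAction B Y]
variable {f : C →* A} {g : C →* B} {oX : X → K} {oY : Y → K} {N : Subgroup C}

lemma Ctx.cosetY (H : Ctx f g oX oY N) {y : Y} {b b' : B} {e : C}
    (h : g e • b • y = b' • y) : ((b⁻¹ : B) : B ⧸ g.range) = ((b'⁻¹ : B) : B ⧸ g.range) := by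
  have e2 : ((g e)⁻¹ * (b' * b⁻¹)) • (b • y) = b • y := by
    rw [mul_smul, mul_smul, inv_smul_smul, ← h, inv_smul_smul]
  have e3 := H.stY _ _ e2
  have e4 : b' * b⁻¹ ∈ g.range := by
    have : b' * b⁻¹ = g e * ((g e)⁻¹ * (b' * b⁻¹)) := by group
    rw [this]
    exact g.range.mul_mem ⟨_, rfl⟩ e3
  rw [QuotientGroup.eq, inv_inv]
  have : b * b'⁻¹ = (b' * b⁻¹)⁻¹ := by group
  rw [this]
  exact g.range.inv_mem e4

/-- only finitely many (at most two) cosets lead to an atom with label `false` -/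
lemma Ctx.finite_bad (H : Ctx f g oX oY N) {s : Set (X × Y × Bool)}
    (hs : Good (QQ f g oX oY) s) (y : Y) :
    {q : B ⧸ g.range | ∃ b : B, q = ((b⁻¹ : B) : B ⧸ g.range) ∧ ∃ a ∈ s, a.2.2 = false ∧
      ∃ c, g c • a.2.1 = b • y}.Finite := by
  classical
  by_contra hinf
  obtain ⟨t, ht, hcard⟩ := Set.Infinite.exists_subset_card_eq hinf 3
  obtain ⟨q1, q2, q3, h12, h13, h23, htt⟩ := Finset.card_eq_three.1 hcard
  obtain ⟨b1, rfl, a1, ha1, l1, c1, e1⟩ := ht (by simp [htt] : q1 ∈ (t : Set _))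
  obtain ⟨b2, rfl, a2, ha2, l2, c2, e2⟩ := ht (by simp [htt] : q2 ∈ (t : Set _))
  obtain ⟨b3, rfl, a3, ha3, l3, c3, e3⟩ := ht (by simp [htt] : q3 ∈ (t : Set _))
  have o1 : oY a1.2.1 = oY y := by
    refine (H.hoY _ _).2 ⟨b1⁻¹ * g c1, ?_⟩
    rw [mul_smul, e1, inv_smul_smul]
  have o2 : oY a2.2.1 = oY y := by
    refine (H.hoY _ _).2 ⟨b2⁻¹ * g c2, ?_⟩
    rw [mul_smul, e2, inv_smul_smul]
  have o3 : oY a3.2.1 = oY y := by
    refine (H.hoY _ _).2 ⟨b3⁻¹ * g c3, ?_⟩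
    rw [mul_smul, e3, inv_smul_smul]
  have key : ∀ a ∈ s, ∀ a' ∈ s, ∀ (b b' : B) (c c' : C), g c • a.2.1 = b • y →
      g c' • a'.2.1 = b' • y → (∃ d, f d • a.1 = a'.1) →
      ((b⁻¹ : B) : B ⧸ g.range) = ((b'⁻¹ : B) : B ⧸ g.range) := by
    rintro a ha a' ha' b b' c c' h1 h2 ⟨d, hd⟩
    have h3 := ((hs a ha a' ha' a ha).1.1 d).1 hd
    apply H.cosetY (e := c' * d * c⁻¹) (y := y)
    rw [← h1, ← h2, ← h3, smul_smul, smul_smul, ← map_mul, ← map_mul]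
    congr 2
    group
  rcases (hs a1 ha1 a2 ha2 a3 ha3).2 l1 l2 l3 (o1.trans o2.symm) (o2.trans o3.symm) with h | h | h
  · exact h12 (key a1 ha1 a2 ha2 b1 b2 c1 c2 e1 e2 h)
  · exact h13 (key a1 ha1 a3 ha3 b1 b3 c1 c3 e1 e3 h)
  · exact h23 (key a2 ha2 a3 ha3 b2 b3 c2 c3 e2 e3 h)

/-- the resulting bijection between the two sets -/
theorem Ctx.exists_equiv (H : Ctx f g oX oY N) {κ : Cardinal.{u}} (hκ : ℵ₀ ≤ κ) (hK : #K = κ)
    (hB : ℵ₀ ≤ #(B ⧸ g.range)) {b₁ : B} (hb₁ : b₁ ∉ g.range) (hX : #X ≤ κ) (hY : #Y ≤ κ) :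
    ∃ σ : X ≃ Y, (∀ x c, σ (f c • x) = g c • σ x) ∧
      (∀ x x', oX x = oX x' → oY (σ x) = oY (σ x') → ∃ c, f c • x = x') ∧
      (∀ x x', oY (σ x) ≠ oY (σ x') →
        ∃ b : B, oX (σ.symm (b • σ x)) ≠ oX (σ.symm (b • σ x'))) ∧
      (∀ x x' y y', Sep f κ x x' → Sep f κ y y' → oX x ≠ oX y → oX x ≠ oX y' → oX x' ≠ oX y →
        oX x' ≠ oX y' → ∃ α α' : A, σ (α' • y) = b₁ • σ (α • x) ∧
          σ (α' • y') = b₁ • σ (α • x')) := by
  obtain ⟨s, hs, hR⟩ := H.exists_total hκ hK hb₁ hX hY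
  have hRx : ∀ x : X, ∃ a ∈ s, ∃ c, f c • a.1 = x := fun x => hR (Sum.inl x)
  have hRy : ∀ y : Y, ∃ a ∈ s, ∃ c, g c • a.2.1 = y := fun y => hR (Sum.inr (Sum.inl y))
  choose at_ hat ct hct using hRx
  set τ : X → Y := fun x => g (ct x) • (at_ x).2.1 with hτ
  have key : ∀ x, ∀ a ∈ s, ∀ c, f c • a.1 = x → τ x = g c • a.2.1 := by
    intro x a ha c hc
    have h1 : f (c⁻¹ * ct x) • (at_ x).1 = a.1 := by
      rw [map_mul, mul_smul, hct, ← hc, map_inv, inv_smul_smul]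
    have h2 := ((hs _ (hat x) a ha a ha).1.1 _).1 h1
    rw [hτ]
    simp only
    rw [← h2, smul_smul, ← map_mul]
    congr 2
    group
  have hinj : Function.Injective τ := by
    intro x x' h
    obtain hx := hct x
    obtain hx' := hct x'
    simp only [hτ] at h
    have h1 : g ((ct x')⁻¹ * ct x) • (at_ x).2.1 = (at_ x').2.1 := by
      rw [map_mul, mul_smul, h, map_inv, inv_smul_smul]
    have h2 := ((hs _ (hat x) _ (hat x') _ (hat x)).1.1 _).2 h1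
    rw [← hx, ← hx', ← h2, smul_smul, ← map_mul]
    congr 2
    group
  have hsurj : Function.Surjective τ := by
    intro y
    obtain ⟨a, ha, c, hc⟩ := hRy y
    exact ⟨f c • a.1, (key _ a ha c rfl).trans hc⟩
  set σ : X ≃ Y := Equiv.ofBijective τ ⟨hinj, hsurj⟩ with hσ
  have hσk : ∀ x, ∀ a ∈ s, ∀ c, f c • a.1 = x → σ x = g c • a.2.1 := key
  have hσs : ∀ y, ∀ a ∈ s, ∀ c, g c • a.2.1 = y → σ.symm y = f c • a.1 := by
    intro y a ha c hc
    rw [Equiv.symm_apply_eq, hσk _ a ha c rfl, hc]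
  have oa : ∀ (a : A) (z : X), oX (a • z) = oX z := fun a z => ((H.hoX z (a • z)).2 ⟨a, rfl⟩).symm
  have ob : ∀ (b : B) (z : Y), oY (b • z) = oY z := fun b z => ((H.hoY z (b • z)).2 ⟨b, rfl⟩).symm
  refine ⟨σ, ?_, ?_, ?_, ?_⟩
  · intro x c
    have h1 := hσk (f c • x) _ (hat x) (c * ct x) (by rw [map_mul, mul_smul, hct])
    have h2 := hσk x _ (hat x) (ct x) (hct x)
    rw [h1, h2, map_mul, mul_smul]
  · intro x x' h1 h2
    have k1 := hσk x _ (hat x) (ct x) (hct x)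
    have k2 := hσk x' _ (hat x') (ct x') (hct x')
    have k3 : oX (at_ x).1 = oX (at_ x').1 := by
      rw [← oa (f (ct x)), ← oa (f (ct x')) (at_ x').1, hct, hct]; exact h1
    have k4 : oY (at_ x).2.1 = oY (at_ x').2.1 := by
      rw [k1, k2, ob, ob] at h2; exact h2
    obtain ⟨d, hd⟩ := (hs _ (hat x) _ (hat x') _ (hat x)).1.2.2 k3 k4
    refine ⟨ct x' * d * (ct x)⁻¹, ?_⟩
    have e1 : f (ct x)⁻¹ • x = (at_ x).1 := by
      rw [map_inv, inv_smul_eq_iff]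
      exact (hct x).symm
    rw [map_mul, map_mul, mul_smul, mul_smul, e1, hd, hct]
  · intro x x' hne
    have hfin := (H.finite_bad hs (σ x)).union (H.finite_bad hs (σ x'))
    have hinf : Infinite (B ⧸ g.range) := Cardinal.infinite_iff.2 hB
    obtain ⟨q, hq⟩ := hfin.exists_notMem
    obtain ⟨b0, rfl⟩ := QuotientGroup.mk_surjective q
    rw [mem_union, not_or] at hq
    refine ⟨b0⁻¹, ?_⟩
    obtain ⟨a, ha, c, hc⟩ := hRy (b0⁻¹ • σ x)
    obtain ⟨a', ha', c', hc'⟩ := hRy (b0⁻¹ • σ x')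
    have l1 : a.2.2 = true := by
      by_contra hcon
      apply hq.1
      exact ⟨b0⁻¹, by rw [inv_inv], a, ha, by simpa using hcon, c, hc⟩
    have l2 : a'.2.2 = true := by
      by_contra hcon
      apply hq.2
      exact ⟨b0⁻¹, by rw [inv_inv], a', ha', by simpa using hcon, c', hc'⟩
    rw [hσs _ a ha c hc, hσs _ a' ha' c' hc', oa, oa]
    intro heq
    obtain ⟨d, hd⟩ := (hs a ha a' ha' a ha).1.2.1 l1 l2 heq
    have h3 := ((hs a ha a' ha' a ha).1.1 d).1 hd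
    apply hne
    rw [← ob b0⁻¹ (σ x), ← ob b0⁻¹ (σ x'), ← hc, ← hc', ob, ob, ← h3, ob]
  · intro x x' y y' h1 h2 h3 h4 h5 h6
    obtain ⟨α, α', p, p', k1, k2, k3, k4⟩ := hR (Sum.inr (Sum.inr (x, x', y, y'))) h1 h2 h3 h4 h5 h6
    refine ⟨α, α', ?_, ?_⟩
    · rw [hσk (α • x) _ k1 1 (by simp), hσk (α' • y) _ k2 1 (by simp)]
      simp
    · rw [hσk (α • x') _ k3 1 (by simp), hσk (α' • y') _ k4 1 (by simp)]
      simp

end Pool.Agent.Helper793.MS
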