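import Pool.Agent.Helper793.MS.Main

set_option autoImplicit false

open Cardinal Set

universe u v

namespace Pool.Agent.Helper793.MS

/-- if `G` is generated by a proper subgroup and finitely many elements, then `G` has a maximal
subgroup (Zorn) -/
theorem exists_coatom_of_fg {G : Type v} [Group G] (H : Subgroup G) (hH : H ≠ ⊤) (F : Finset G)
    (hF : H ⊔ Subgroup.closure (F : Set G) = ⊤) : ∃ M : Subgroup G, IsCoatom M ∧ H ≤ M := by
  let P : Set (Subgroup G) := {K | H ≤ K ∧ K ≠ ⊤}
  obtain ⟨M, hM⟩ := zorn_le_nonempty₀ P (by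
    intro c hcP hc y hy
    refine ⟨sSup c, ⟨(hcP hy).1.trans (le_sSup hy), ?_⟩, fun z hz => le_sSup hz⟩
    intro htop
    have hmem : ∀ x : G, ∃ K ∈ c, x ∈ K := by
      intro x
      have hx : x ∈ sSup c := by rw [htop]; trivial
      rwa [Subgroup.mem_sSup_of_directedOn ⟨y, hy⟩ hc.directedOn] at hx
    have hfin : ∀ S : Finset G, ∃ K ∈ c, (S : Set G) ⊆ K := by
      intro S
      classical
      induction S using Finset.induction_on with
      | empty => exact ⟨y, hy, by simp⟩
      | insert x S _ ih =>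
        obtain ⟨K1, h1, h2⟩ := ih
        obtain ⟨K2, h3, h4⟩ := hmem x
        rcases hc.total h1 h3 with h | h
        · refine ⟨K2, h3, ?_⟩
          rw [Finset.coe_insert]
          exact insert_subset h4 (h2.trans h)
        · refine ⟨K1, h1, ?_⟩
          rw [Finset.coe_insert]
          exact insert_subset (h h4) h2
    obtain ⟨K, hK, hFK⟩ := hfin F
    apply (hcP hK).2
    rw [eq_top_iff, ← hF]
    exact sup_le (hcP hK).1 ((Subgroup.closure_le _).2 hFK)) H ⟨le_rfl, hH⟩
  refine ⟨M, ⟨hM.2.prop.2, ?_⟩, hM.1⟩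
  intro L hL
  by_contra hne
  exact absurd (hM.2.le_of_ge ⟨hM.2.prop.1.trans hL.le, hne⟩ hL.le) (not_le_of_gt hL)

/-- finite generation over the amalgamated subgroup -/
theorem maximal_of_fg {A B C : Type u} {G : Type v} [Group A] [Group B] [Group C] [Group G]
    (f : C →* A) (g : C →* B) (iA : A →* G) (iB : B →* G) (comm : ∀ c, iA (f c) = iB (g c))
    (hgen : iA.range ⊔ iB.range = ⊤) (hprop : iA.range ≠ ⊤) (F : Finset B)
    (hF : g.range ⊔ Subgroup.closure (F : Set B) = ⊤) :
    ∃ M : Subgroup G, IsCoatom M := by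
  classical
  obtain ⟨M, hM, _⟩ := exists_coatom_of_fg iA.range hprop (F.image iB) (by
    rw [eq_top_iff, ← hgen]
    refine sup_le le_sup_left ?_
    rintro _ ⟨b, rfl⟩
    have hb : b ∈ g.range ⊔ Subgroup.closure (F : Set B) := by rw [hF]; trivial
    have hle : g.range ⊔ Subgroup.closure (F : Set B) ≤
        (iA.range ⊔ Subgroup.closure ((F.image iB : Finset G) : Set G)).comap iB := by
      refine sup_le ?_ ?_
      · rintro _ ⟨c, rfl⟩
        rw [Subgroup.mem_comap, ← comm]
        exact Subgroup.mem_sup_left ⟨_, rfl⟩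
      · rw [Subgroup.closure_le]
        intro x hx
        rw [SetLike.mem_coe, Subgroup.mem_comap]
        apply Subgroup.mem_sup_right
        apply Subgroup.subset_closure
        rw [Finset.coe_image]
        exact ⟨x, hx, rfl⟩
    exact hle hb)
  exact ⟨M, hM⟩

/-- finite index gives finite generation -/
lemma fg_of_finite_index {B C : Type u} [Group B] [Group C] (g : C →* B)
    (hfin : Finite (B ⧸ g.range)) :
    ∃ F : Finset B, g.range ⊔ Subgroup.closure (F : Set B) = ⊤ := by
  classical
  have := Fintype.ofFinite (B ⧸ g.range)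
  refine ⟨(Finset.univ : Finset (B ⧸ g.range)).image Quotient.out, ?_⟩
  rw [eq_top_iff]
  intro b _
  have e1 : ((b : B ⧸ g.range).out : B ⧸ g.range) = (b : B ⧸ g.range) := Quotient.out_eq' _
  rw [QuotientGroup.eq] at e1
  have h2 : (b : B ⧸ g.range).out ∈ Subgroup.closure
      (((Finset.univ : Finset (B ⧸ g.range)).image Quotient.out : Finset B) : Set B) := by
    apply Subgroup.subset_closure
    rw [Finset.coe_image]
    exact ⟨_, by simp, rfl⟩
  have e3 : b = (b : B ⧸ g.range).out * ((b : B ⧸ g.range).out⁻¹ * b) := by group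
  rw [e3]
  exact Subgroup.mul_mem _ (Subgroup.mem_sup_right h2) (Subgroup.mem_sup_left e1)

end Pool.Agent.Helper793.MS
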